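import Mathlib
import Pool.Agent.Helper58.FX.Defs
import Pool.Agent.Helper91.TTT.Exotic

set_option autoImplicit false
open MeasureTheory Filter Topology Helper17.FU Helper17.FUGroup Helper91.TTT
open scoped InnerProductSpace ComplexConjugate ENNReal ComplexOrder

/-! Project FX (MP_81910f_an): FX-25 and FX-26. -/

namespace Helper63.FX
open Helper58.FX

variable {s2 s3 t : Equiv.Perm ℚ}

/-- FX-25 -/
theorem exlike_of_exotic (h2 : ∀ x : ℚ, s2 x = 2 * x) (h3 : ∀ x : ℚ, s3 x = 3 * x)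
    (ht : ∀ x : ℚ, t x = x + 1) {τ : GG s2 s3 t} (hτ : (τ : Equiv.Perm ℚ) = t)
    {φ : GG s2 s3 t → ℂ} (hφ : φ ∈ Set.extremePoints ℝ (TR (GG s2 s3 t)))
    (hΔ : φ ≠ Set.indicator ({1} : Set (GG s2 s3 t)) (fun _ => (1 : ℂ)))
    (hfd : ¬ FiniteDimensional ℂ (Submodule.span ℂ {F : GG s2 s3 t → ℂ | ∃ n : GG s2 s3 t,
      IsTr n ∧ F = fun x => φ (n * x)})) :
    ExLike (fun n : ℤ => φ (τ ^ n)) := by
  have hφ1 : φ 1 = 1 := hφ.1.1
  have hφc := hφ.1.2.1
  have hFφ : Fact (PD φ) := ⟨hφ.1.2.2⟩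
  obtain ⟨σ2, σ3, τ', hσ2, hσ3, hτ', e2, e3, ecomm, hgen⟩ := relations h2 h3 ht
  have hττ' : τ' = τ := Subtype.ext (by rw [hτ', hτ])
  rw [hττ'] at e2 e3 hgen
  have hP : ∀ j : ℤ, (σ2 * σ3) * τ ^ j * (σ2 * σ3)⁻¹ = τ ^ (6 * j) := by
    intro j
    have e : (σ2 * σ3) * τ ^ j * (σ2 * σ3)⁻¹ = σ2 * (σ3 * τ ^ j * σ3⁻¹) * σ2⁻¹ := by group
    rw [e, conj_pow3 e3, Helper17.FU.conj_pow e2]
    congr 1; ring
  refine ⟨?_, ?_, ?_⟩
  · obtain ⟨μ, hμp, hμ⟩ := herglotz (rf_pdz (φ := φ) τ 1) (by unfold rf; simp [hφ1])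
    have hμ' : ∀ n : ℤ, ∫ x, (fourier n x : ℂ) ∂μ = φ (τ ^ n) := by
      intro n
      rw [hμ n]; unfold rf; rw [one_mul]
    have hm2 : μ.map (fun x : AddCircle (1 : ℝ) => (2 : ℤ) • x) = μ := by
      apply map_zsmul_eq
      intro n
      rw [hμ', hμ', mul_comm, ← Helper17.FU.conj_pow e2, hφc]
    have hm3 : μ.map (fun x : AddCircle (1 : ℝ) => (3 : ℤ) • x) = μ := by
      apply map_zsmul_eq
      intro n
      rw [hμ', hμ', mul_comm, ← conj_pow3 e3, hφc]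
    refine ⟨μ, hμp, hμ', ?_, ?_, ?_⟩
    · refine ⟨Helper17.TranslM.measurable_T 2, ?_⟩
      have : (T 2 : AddCircle (1 : ℝ) → AddCircle (1 : ℝ)) = fun x : AddCircle (1 : ℝ) => (2 : ℤ) • x := by
        funext x
        show (2 : ℕ) • x = (2 : ℤ) • x
        rw [← natCast_zsmul]; rfl
      rw [this]; exact hm2
    · refine ⟨Helper17.TranslM.measurable_T 3, ?_⟩
      have : (T 3 : AddCircle (1 : ℝ) → AddCircle (1 : ℝ)) = fun x : AddCircle (1 : ℝ) => (3 : ℤ) • x := by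
        funext x
        show (3 : ℕ) • x = (3 : ℤ) • x
        rw [← natCast_zsmul]; rfl
      rw [this]; exact hm3
    · intro x0
      by_contra hx0
      obtain ⟨k, hk, hker⟩ := atom_kernel hφ σ2 σ3 τ τ e2 e3 hgen
        (by intro j; group) μ hμ' hx0
      apply hfd
      have hk6 : (6 : ℤ) ^ k - 1 ≠ 0 := by
        have : (6 : ℤ) ^ 1 ≤ 6 ^ k := pow_le_pow_right₀ (by norm_num) hk
        omega
      exact fd_of_kernel hφ1 hφc (σ2 * σ3) τ hP hk6 hker
        {n | IsTr n} (fun n hn => trans_conj h2 h3 ht hσ2 hσ3 hτ n hn)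
  · intro m
    have h := ergodic_part hφ σ2 σ3 τ e2 e3 ecomm hgen m
    unfold rf at h
    rw [mul_one] at h
    exact h
  · by_contra hno
    push Not at hno
    exact hΔ (eq_indicator h2 h3 ht φ hφ.1 τ hτ hno)

/-- FX-26 -/
theorem exists_injective_subseq {X : Type*} [TopologicalSpace X] [T2Space X] (x : ℕ → X) {y : X}
    (hx : Tendsto x atTop (𝓝 y)) (hne : ∀ i, x i ≠ y) :
    ∃ σ : ℕ → ℕ, StrictMono σ ∧ Function.Injective (fun i => x (σ i)) := by
  have hev : ∀ i, ∀ᶠ j in atTop, x j ≠ x i := by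
    intro i
    exact hx.eventually_ne (hne i).symm
  obtain ⟨σ, -, hσ⟩ := exists_seq_of_forall_finset_exists (fun _ : ℕ => True)
    (fun i j => i < j ∧ x i ≠ x j) (by
      intro s _
      have h1 : ∀ᶠ j in atTop, ∀ i ∈ s, i < j ∧ x i ≠ x j := by
        rw [Filter.eventually_all_finset]
        intro i _
        filter_upwards [eventually_gt_atTop i, hev i] with j hj1 hj2
        exact ⟨hj1, hj2.symm⟩
      obtain ⟨j, hj⟩ := h1.exists
      exact ⟨j, trivial, hj⟩)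
  refine ⟨σ, fun m n h => (hσ m n h).1, ?_⟩
  intro m n hmn
  by_contra h
  rcases lt_or_gt_of_ne h with h1 | h1
  · exact (hσ m n h1).2 hmn
  · exact (hσ n m h1).2 hmn.symm

/-- FX-26 -/
theorem exists_injective_subseq' {X Y : Type*} (x : ℕ → X) (f : X → Y)
    (hx : Function.Injective x) (hf : ∀ y : Y, {z | z ∈ Set.range x ∧ f z = y}.Finite) :
    ∃ σ : ℕ → ℕ, StrictMono σ ∧ Function.Injective (fun i => f (x (σ i))) := by
  have hev : ∀ i, ∀ᶠ j in atTop, f (x j) ≠ f (x i) := by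
    intro i
    have h1 : {j | f (x j) = f (x i)}.Finite := by
      have h2 := (hf (f (x i))).preimage (f := x) hx.injOn
      refine h2.subset ?_
      intro j hj
      exact ⟨⟨j, rfl⟩, hj⟩
    rw [← Nat.cofinite_eq_atTop]
    have h3 := h1.compl_mem_cofinite
    exact h3
  obtain ⟨σ, -, hσ⟩ := exists_seq_of_forall_finset_exists (fun _ : ℕ => True)
    (fun i j => i < j ∧ f (x i) ≠ f (x j)) (by
      intro s _
      have h1 : ∀ᶠ j in atTop, ∀ i ∈ s, i < j ∧ f (x i) ≠ f (x j) := by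
        rw [Filter.eventually_all_finset]
        intro i _
        filter_upwards [eventually_gt_atTop i, hev i] with j hj1 hj2
        exact ⟨hj1, hj2.symm⟩
      obtain ⟨j, hj⟩ := h1.exists
      exact ⟨j, trivial, hj⟩)
  refine ⟨σ, fun m n h => (hσ m n h).1, ?_⟩
  intro m n hmn
  by_contra h
  rcases lt_or_gt_of_ne h with h1 | h1
  · exact (hσ m n h1).2 hmn
  · exact (hσ n m h1).2 hmn.symm

end Helper63.FX
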