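import Mathlib
import Pool.Agent.Helper58.FX.Defs2
import Pool.Agent.Helper28.FX.Meas

set_option autoImplicit false
open MeasureTheory Filter Topology Helper17.LevelSets
open scoped InnerProductSpace ComplexConjugate ENNReal ComplexOrder

/-! Project FX, piece CV-3: exponentials of sums of positive definite functions. -/

namespace Helper63.FX
open Helper58.FX

lemma pdz_add {f g : ℤ → ℂ} (hf : PDZ f) (hg : PDZ g) : PDZ (fun n => f n + g n) := by
  intro s c
  have h := add_nonneg (hf s c) (hg s c)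
  refine h.trans_eq ?_
  rw [← Finset.sum_add_distrib]
  refine Finset.sum_congr rfl fun i _ => ?_
  rw [← Finset.sum_add_distrib]
  refine Finset.sum_congr rfl fun j _ => ?_
  ring

lemma pdz_smul {f : ℤ → ℂ} (hf : PDZ f) {r : ℝ} (hr : 0 ≤ r) : PDZ (fun n => (r : ℂ) * f n) := by
  intro s c
  have hr' : (0 : ℂ) ≤ (r : ℂ) := by exact_mod_cast hr
  have h := mul_nonneg hr' (hf s c)
  refine h.trans_eq ?_
  rw [Finset.mul_sum]
  refine Finset.sum_congr rfl fun i _ => ?_
  rw [Finset.mul_sum]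
  refine Finset.sum_congr rfl fun j _ => ?_
  ring

lemma pdz_zero : PDZ (fun _ => 0) := by
  intro s c
  simp

lemma pdz_one : PDZ (fun _ => 1) := by
  intro s c
  have e : ∑ i ∈ s, ∑ j ∈ s, star (c j) * c i * 1 = star (∑ j ∈ s, c j) * ∑ i ∈ s, c i := by
    rw [star_sum, Finset.sum_mul_sum, Finset.sum_comm]
    refine Finset.sum_congr rfl fun j _ => Finset.sum_congr rfl fun i _ => ?_
    ring
  rw [e]
  exact star_mul_self_nonneg _

lemma pdz_sum {ι : Type*} (s : Finset ι) (f : ι → ℤ → ℂ) (hf : ∀ i ∈ s, PDZ (f i)) :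
    PDZ (fun n => ∑ i ∈ s, f i n) := by
  classical
  induction s using Finset.induction_on with
  | empty => simpa using pdz_zero
  | insert a s ha ih =>
    have h := pdz_add (hf a (Finset.mem_insert_self _ _))
      (ih fun i hi => hf i (Finset.mem_insert_of_mem hi))
    simpa [Finset.sum_insert ha] using h

lemma pdz_conj {f : ℤ → ℂ} (hf : PDZ f) : PDZ (fun n => star (f n)) := by
  intro s c
  have h := star_nonneg_iff.2 (hf s (fun i => star (c i)))
  refine h.trans_eq ?_
  rw [star_sum]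
  refine Finset.sum_congr rfl fun i _ => ?_
  rw [star_sum]
  refine Finset.sum_congr rfl fun j _ => ?_
  simp only [star_mul', star_star]

lemma pdz_re {f : ℤ → ℂ} (hf : PDZ f) : PDZ (fun n => (((f n).re : ℝ) : ℂ)) := by
  have h := pdz_smul (pdz_add hf (pdz_conj hf)) (r := 1 / 2) (by norm_num)
  have e : (fun n => (((f n).re : ℝ) : ℂ)) = fun n => (((1 / 2 : ℝ)) : ℂ) * (f n + star (f n)) := by
    funext n
    apply Complex.ext <;> simp
    ring
  rw [e]
  exact h

lemma pdz_of_tendsto {F : ℕ → ℤ → ℂ} {f : ℤ → ℂ} (hF : ∀ k, PDZ (F k))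
    (h : ∀ n, Tendsto (fun k => F k n) atTop (𝓝 (f n))) : PDZ f := by
  intro s c
  have h1 : Tendsto (fun k => ∑ i ∈ s, ∑ j ∈ s, star (c j) * c i * F k (i - j)) atTop
      (𝓝 (∑ i ∈ s, ∑ j ∈ s, star (c j) * c i * f (i - j))) :=
    tendsto_finsetSum _ fun i _ => tendsto_finsetSum _ fun j _ => (h _).const_mul _
  exact ge_of_tendsto' h1 fun k => hF k s c

lemma pdz_mul {f g : ℤ → ℂ} (hf : PDZ f) (hf0 : f 0 = 1) (hg : PDZ g) (hg0 : g 0 = 1) :
    PDZ (fun n => f n * g n) := by
  obtain ⟨μ, hμ, hfμ⟩ := Helper91.TTT.herglotz hf hf0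
  obtain ⟨ν, hν, hgν⟩ := Helper91.TTT.herglotz hg hg0
  have hmeas : Measurable (fun z : Helper58.FX.Tor × Helper58.FX.Tor => z.1 + z.2) := by fun_prop
  let ρ0 : Measure Helper58.FX.Tor :=
    (μ.prod ν).map (fun z : Helper58.FX.Tor × Helper58.FX.Tor => z.1 + z.2)
  have : IsProbabilityMeasure ρ0 := Measure.isProbabilityMeasure_map hmeas.aemeasurable
  have hft : ft ρ0 = fun n => f n * g n := by
    funext n
    have h4 : ft ρ0 n = ∫ z : Helper58.FX.Tor × Helper58.FX.Tor,
        (fourier n z.1 : ℂ) * (fourier n z.2 : ℂ) ∂(μ.prod ν) := by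
      unfold ft
      rw [integral_map hmeas.aemeasurable (fourier n).continuous.aestronglyMeasurable]
      refine integral_congr_ae (Filter.Eventually.of_forall fun z => ?_)
      show (fourier n (z.1 + z.2) : ℂ) = fourier n z.1 * fourier n z.2
      simp only [fourier_apply, smul_add, AddCircle.toCircle_add, Circle.coe_mul]
    rw [h4, integral_prod_mul (f := fun x : Helper58.FX.Tor => (fourier n x : ℂ))
      (g := fun x : Helper58.FX.Tor => (fourier n x : ℂ)), hfμ, hgν]
  rw [← hft]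
  exact Helper28.FX.pdz_of_measure ρ0

lemma pdz_pow {g : ℤ → ℂ} (hg : PDZ g) (hg0 : g 0 = 1) (k : ℕ) : PDZ (fun n => g n ^ k) := by
  induction k with
  | zero => simpa using pdz_one
  | succ k ih =>
    have h := pdz_mul ih (by simp [hg0]) hg hg0
    simpa [pow_succ] using h

lemma pdz_exp {g : ℤ → ℂ} (hg : PDZ g) (hg0 : g 0 = 1) :
    PDZ (fun n => Complex.exp (g n - 1)) := by
  have h1 : PDZ (fun n => Complex.exp (g n)) := by
    refine pdz_of_tendsto (F := fun K n => ∑ k ∈ Finset.range K, g n ^ k / (k.factorial : ℂ)) ?_ ?_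
    · intro K
      refine pdz_sum _ _ fun k _ => ?_
      have h := pdz_smul (pdz_pow hg hg0 k) (r := ((k.factorial : ℝ))⁻¹) (by positivity)
      have e : (fun n => g n ^ k / (k.factorial : ℂ))
          = fun n => ((((k.factorial : ℝ))⁻¹ : ℝ) : ℂ) * g n ^ k := by
        funext n
        push_cast
        rw [div_eq_inv_mul]
      rw [e]
      exact h
    · intro n
      have h := (NormedSpace.expSeries_div_hasSum_exp (g n)).tendsto_sum_nat
      rw [← Complex.exp_eq_exp_ℂ] at h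
      exact h
  have h2 := pdz_smul h1 (Real.exp_pos (-1)).le
  have e : (fun n => Complex.exp (g n - 1)) = fun n => ((Real.exp (-1) : ℝ) : ℂ) * Complex.exp (g n) := by
    funext n
    rw [Complex.ofReal_exp, ← Complex.exp_add]
    congr 1
    push_cast
    ring
  rw [e]
  exact h2

lemma norm_one_sub_pow_le {z : ℂ} (hz : ‖z‖ = 1) (n : ℕ) : ‖1 - z ^ n‖ ≤ n * ‖1 - z‖ := by
  induction n with
  | zero => simp
  | succ n ih =>
    have e : 1 - z ^ (n + 1) = (1 - z ^ n) + z ^ n * (1 - z) := by ring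
    rw [e]
    refine (norm_add_le _ _).trans ?_
    rw [norm_mul, norm_pow, hz, one_pow, one_mul]
    push_cast
    linarith

lemma normSq_one_sub {z : ℂ} (hz : ‖z‖ = 1) : ‖1 - z‖ ^ 2 = 2 * (1 - z.re) := by
  have h1 : ‖z‖ ^ 2 = 1 := by rw [hz]; norm_num
  rw [← Complex.normSq_eq_norm_sq, Complex.normSq_apply] at h1 ⊢
  simp only [Complex.sub_re, Complex.one_re, Complex.sub_im, Complex.one_im]
  nlinarith

lemma one_sub_re_pow {z : ℂ} (hz : ‖z‖ = 1) (n : ℕ) :
    1 - (z ^ n).re ≤ n ^ 2 * (1 - z.re) := by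
  have h1 := norm_one_sub_pow_le hz n
  have h2 : ‖1 - z ^ n‖ ^ 2 ≤ (n * ‖1 - z‖) ^ 2 := pow_le_pow_left₀ (norm_nonneg _) h1 2
  rw [mul_pow, normSq_one_sub hz, normSq_one_sub (by rw [norm_pow, hz, one_pow])] at h2
  linarith

lemma fourier_nat (n : ℕ) (x : Helper58.FX.Tor) :
    (fourier (n : ℤ) x : ℂ) = (fourier 1 x : ℂ) ^ n := by
  induction n with
  | zero => simp
  | succ n ih =>
    push_cast
    rw [fourier_add, ih, pow_succ]

lemma one_sub_re_nat {f : ℤ → ℂ} (hf : PDZ f) (h0 : f 0 = 1) (n : ℕ) :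
    1 - (f n).re ≤ n ^ 2 * (1 - (f 1).re) := by
  obtain ⟨μ, hμ, hfμ⟩ := Helper91.TTT.herglotz hf h0
  have hint : ∀ m : ℤ, Integrable (fun x : Helper58.FX.Tor => (fourier m x : ℂ)) μ :=
    fun m => Helper91.TTT.integrable_cont μ (fourier m).continuous
  have hintr : ∀ m : ℤ, Integrable (fun x : Helper58.FX.Tor => (fourier m x : ℂ).re) μ :=
    fun m => (hint m).re
  have hre : ∀ m : ℤ, 1 - (f m).re = ∫ x, (1 - (fourier m x : ℂ).re) ∂μ := by
    intro m
    have hr := hintr m
    have h0 : ∫ x, (1 - (fourier m x : ℂ).re) ∂μ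
        = ∫ _x, (1 : ℝ) ∂μ - ∫ x, (fourier m x : ℂ).re ∂μ := integral_sub (integrable_const _) hr
    have h1 : ∫ x, (fourier m x : ℂ).re ∂μ = (∫ x, (fourier m x : ℂ) ∂μ).re :=
      integral_re (hint m)
    rw [h0, h1, ← hfμ m]
    simp
  rw [hre, hre, ← integral_const_mul]
  refine integral_mono ((integrable_const _).sub (hintr _))
    (((integrable_const _).sub (hintr _)).const_mul _) fun x => ?_
  show 1 - (fourier (n : ℤ) x : ℂ).re ≤ (n : ℝ) ^ 2 * (1 - (fourier 1 x : ℂ).re)
  rw [fourier_nat]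
  exact one_sub_re_pow (Helper91.TTT.norm_fourier_apply 1 x) n

lemma one_sub_re_int {f : ℤ → ℂ} (hf : PDZ f) (h0 : f 0 = 1) (n : ℤ) :
    1 - (f n).re ≤ (n.natAbs : ℝ) ^ 2 * (1 - (f 1).re) := by
  rcases Int.natAbs_eq n with h | h
  · conv_lhs => rw [h]
    exact one_sub_re_nat hf h0 n.natAbs
  · have h1 : (f n).re = (f ((n.natAbs : ℕ) : ℤ)).re := by
      conv_lhs => rw [h]
      rw [pdz_herm hf]
      simp
    rw [h1]
    exact one_sub_re_nat hf h0 n.natAbs

lemma one_sub_re_nonneg {f : ℤ → ℂ} (hf : PDZ f) (h0 : f 0 = 1) (n : ℤ) :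
    0 ≤ 1 - (f n).re := by
  have h1 := pdz_norm_le hf h0 n
  have h2 := Complex.re_le_norm (f n)
  linarith

/-- CV-3 -/
theorem exists_exp (f : ℕ → ℤ → ℂ) (hf : ∀ i, IPD (f i))
    (hs : Summable (fun i => 1 - (f i 1).re)) :
    ∃ F : ℤ → ℂ, IPD F ∧ ∀ n, Summable (fun i => 1 - (f i n).re) ∧
      F n = ((Real.exp (-∑' i, (1 - (f i n).re)) : ℝ) : ℂ) := by
  have hsum : ∀ n, Summable (fun i => 1 - (f i n).re) := fun n =>
    Summable.of_nonneg_of_le (fun i => one_sub_re_nonneg (hf i).pd (hf i).one n)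
      (fun i => one_sub_re_int (hf i).pd (hf i).one n) (hs.mul_left _)
  refine ⟨fun n => ((Real.exp (-∑' i, (1 - (f i n).re)) : ℝ) : ℂ), ⟨?_, ?_, ?_, ?_⟩,
    fun n => ⟨hsum n, rfl⟩⟩
  · -- positive definite
    have hprod : ∀ K : ℕ, PDZ (fun n => ((Real.exp (-∑ i ∈ Finset.range K,
        (1 - (f i n).re)) : ℝ) : ℂ)) := by
      intro K
      induction K with
      | zero => simpa using pdz_one
      | succ K ih =>
        have h1 := pdz_exp (pdz_re (hf K).pd) (by simp [(hf K).one])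
        have h2 := pdz_mul ih (by simp [(hf _).one]) h1 (by simp [(hf K).one])
        have e : (fun n => ((Real.exp (-∑ i ∈ Finset.range (K + 1), (1 - (f i n).re)) : ℝ) : ℂ))
            = fun n => ((Real.exp (-∑ i ∈ Finset.range K, (1 - (f i n).re)) : ℝ) : ℂ)
              * Complex.exp ((((f K n).re : ℝ) : ℂ) - 1) := by
          funext n
          rw [Finset.sum_range_succ, neg_add, Real.exp_add, Complex.ofReal_mul]
          congr 1
          rw [Complex.ofReal_exp]
          congr 1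
          push_cast
          ring
        rw [e]
        exact h2
    refine pdz_of_tendsto hprod fun n => ?_
    have h1 := (hsum n).hasSum.tendsto_sum_nat
    exact (Complex.continuous_ofReal.tendsto _).comp
      ((Real.continuous_exp.tendsto _).comp h1.neg)
  · simp [(hf _).one]
  · intro n
    simp only [(hf _).two]
  · intro n
    simp only [(hf _).three]

end Helper63.FX
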